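import Pool.Agent.Work.MP_223b32_es.Interface
import Pool.Agent.Work.MP_223b32_es_helper87.ZER

/-!
# The number of the polynomials given by noncubes
-/

namespace Pool.Agent.Work.ES

open Finset Polynomial Module

namespace PAR2

section General

variable {F : Type} [Field F]

theorem mm_monic (c : F) : (mm c).Monic := by
  rw [mm]
  refine (monic_X_pow 3).sub_of_left ?_
  rw [degree_X_pow]
  exact lt_of_le_of_lt (degree_C_mul_X_le _) (by norm_num)

theorem mm_natDegree (c : F) : (mm c).natDegree = 3 := by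
  rw [mm]
  refine (natDegree_sub_eq_left_of_natDegree_lt ?_).trans (natDegree_X_pow 3)
  rw [natDegree_X_pow]
  exact lt_of_le_of_lt (natDegree_C_mul_le _ _) (by rw [natDegree_X]; norm_num)

theorem aeval_mm {A : Type} [Field A] [Algebra F A] (c : F) (x : A) :
    aeval x (mm c) = x ^ 3 - 3 * algebraMap F A c * x := by
  simp only [mm, map_sub, map_pow, aeval_X, map_mul, aeval_C, map_ofNat]

theorem irreducible_of_comp {D : F[X]} {m : F[X]} (hm : m.natDegree = 3)
    (hi : Irreducible (D.comp m)) : Irreducible D := by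
  have hu : ∀ A : F[X], A ≠ 0 → IsUnit (A.comp m) → IsUnit A := by
    intro A hA h
    have h1 := natDegree_eq_zero_of_isUnit h
    rw [natDegree_comp, hm] at h1
    have h2 : A.natDegree = 0 := by omega
    rw [natDegree_eq_zero] at h2
    obtain ⟨a, rfl⟩ := h2
    have ha : a ≠ 0 := fun h => hA (by simp [h])
    exact isUnit_C.2 (isUnit_iff_ne_zero.2 ha)
  refine ⟨fun h => hi.not_isUnit ?_, ?_⟩
  · obtain ⟨a, ha, rfl⟩ := isUnit_iff.1 h
    rw [C_comp]
    exact isUnit_C.2 ha
  · rintro A B rfl
    rw [mul_comp] at hi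
    have h0 : A.comp m * B.comp m ≠ 0 := hi.ne_zero
    have hA : A ≠ 0 := by
      rintro rfl
      simp at h0
    have hB : B ≠ 0 := by
      rintro rfl
      simp at h0
    rcases hi.isUnit_or_isUnit rfl with h | h
    · exact Or.inl (hu A hA h)
    · exact Or.inr (hu B hB h)

end General

section Fin

variable {F K : Type} [Field F] [Fintype F] [Field K] [Fintype K] [Algebra F K]

/-- Elements of an extension fixed by Frobenius are in the base. -/
theorem mem_of_pow {L : Type} [Field L] [Algebra K L] {z : L} (hz : z ^ Fintype.card K = z) :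
    ∃ x : K, algebraMap K L x = z := by
  have h : (X ^ Fintype.card K - X : K[X]).map (algebraMap K L) =
      (∏ x : K, (X - C x)).map (algebraMap K L) := by
    congr 1
    have h1 : (X ^ Fintype.card K - X : K[X]).Monic :=
      monic_X_pow_sub (by
        rw [degree_X]
        exact_mod_cast Fintype.one_lt_card)
    have h2 := prod_multiset_X_sub_C_of_monic_of_roots_card_eq h1 (by
      rw [FiniteField.roots_X_pow_card_sub_X,
        FiniteField.X_pow_card_sub_X_natDegree_eq K Fintype.one_lt_card]
      rfl)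
    rw [← h2, FiniteField.roots_X_pow_card_sub_X]
    rfl
  have h3 := congrArg (eval z) h
  simp only [Polynomial.map_sub, Polynomial.map_pow, map_X, eval_sub, eval_pow, eval_X,
    Polynomial.map_prod, map_C, eval_prod, eval_C] at h3
  rw [hz, sub_self, eq_comm, prod_eq_zero_iff] at h3
  obtain ⟨x, -, hx⟩ := h3
  exact ⟨x, (sub_eq_zero.1 hx).symm⟩

omit [Fintype F] in
/-- No root of `D ∘ m` in `K`. -/
theorem no_root {D m : F[X]} (hDm : D.Monic) (hmm : m.Monic) (hm : m.natDegree = 3)
    (hi : Irreducible (D.comp m)) (hD : D.natDegree = Module.finrank F K) (x : K) :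
    aeval (aeval x m) D ≠ 0 := by
  intro h
  rw [← aeval_comp] at h
  have hM : (D.comp m).Monic := hDm.comp hmm (by rw [hm]; norm_num)
  have h1 := minpoly.eq_of_irreducible_of_monic hi h hM
  have h2 := minpoly.natDegree_le (A := F) x
  rw [← h1, natDegree_comp, hm, hD] at h2
  have h3 : 0 < Module.finrank F K := Module.finrank_pos
  omega

/-- The roots of `D ∘ m` are fixed by the third power of the Frobenius of `K`. -/
theorem pow_cube {L : Type} [Field L] [Algebra F L] {D m : F[X]} (hm : m.natDegree = 3)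
    (hi : Irreducible (D.comp m)) (hD : D.natDegree = Module.finrank F K) {b : L}
    (hb : aeval b (D.comp m) = 0) :
    ((b ^ Fintype.card K) ^ Fintype.card K) ^ Fintype.card K = b := by
  have h1 := (hi.natDegree_dvd_iff_dvd_X_pow_card_pow_sub_X (n := (D.comp m).natDegree)).1
    dvd_rfl
  obtain ⟨R, hR⟩ := h1
  have h2 := congrArg (aeval b) hR
  rw [map_mul, hb, zero_mul, map_sub, map_pow, aeval_X, sub_eq_zero] at h2
  rw [← pow_mul, ← pow_mul]
  have h3 : Fintype.card K * (Fintype.card K * Fintype.card K) =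
      Nat.card F ^ (D.comp m).natDegree := by
    rw [natDegree_comp, hm, hD, Module.card_eq_pow_finrank (K := F) (V := K),
      Nat.card_eq_fintype_card]
    ring
  rw [h3, h2]

/-- The cubic `m_c(x) - a` and the quadratic `w ^ 2 - a w + c ^ 3`. -/
theorem quad_aux (L : Type) [Field L] [IsAlgClosed L] [Algebra K L] [Algebra F L]
    [IsScalarTower F K L] (hq : Fintype.card F % 6 = 1) {c : F} (hc0 : c ≠ 0) {D : F[X]} (hDm : D.Monic)
    (hi : Irreducible (D.comp (mm c))) (hD : D.natDegree = Module.finrank F K) {a : K}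
    (ha : aeval a D = 0) : ∃ w₁ w₂ : K, w₁ + w₂ = a ∧ w₁ * w₂ = algebraMap F K (c ^ 3) := by
  have hK : Fintype.card K % 3 = 1 := by
    rw [Module.card_eq_pow_finrank (K := F) (V := K), Nat.pow_mod,
      show Fintype.card F % 3 = 1 by omega]
    simp
  set jK : K →+* L := algebraMap K L with hjK
  set C' : K := algebraMap F K c with hC'
  have hC0 : C' ≠ 0 := by
    rw [hC']
    exact (_root_.map_ne_zero _).2 hc0
  have hjKC : jK C' ≠ 0 := (_root_.map_ne_zero _).2 hC0
  have hcc : algebraMap F K (c ^ 3) = C' ^ 3 := by rw [map_pow]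
  -- a root of the quadratic
  have hdeg : (X ^ 2 - C (jK a) * X + C (jK C' ^ 3) : L[X]).degree ≠ 0 := by
    have : (X ^ 2 - C (jK a) * X + C (jK C' ^ 3) : L[X]).degree = 2 := by
      compute_degree!
    rw [this]
    norm_num
  obtain ⟨w, hw⟩ := IsAlgClosed.exists_root _ hdeg
  have hw' : w ^ 2 - jK a * w + jK C' ^ 3 = 0 := by
    have := hw
    simpa [IsRoot.def] using this
  have hw0 : w ≠ 0 := by
    rintro rfl
    have : jK C' ^ 3 = 0 := by simpa using hw'
    exact hjKC (pow_eq_zero_iff (by norm_num) |>.1 this)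
  set Q := Fintype.card K with hQ
  have hfix : ∀ x : K, jK x ^ Q = jK x := by
    intro x
    rw [← map_pow, FiniteField.pow_card]
  by_cases hwQ : w ^ Q = w
  · obtain ⟨w₁, hw₁⟩ := mem_of_pow (K := K) hwQ
    have hw₁0 : w₁ ≠ 0 := by
      rintro rfl
      exact hw0 (by rw [← hw₁, map_zero])
    have h1 : w₁ ^ 2 - a * w₁ + C' ^ 3 = 0 := by
      have : jK (w₁ ^ 2 - a * w₁ + C' ^ 3) = 0 := by
        rw [map_add, map_sub, map_mul, map_pow, map_pow, hjK, hw₁]
        exact hw'
      exact (map_eq_zero _).1 this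
    refine ⟨w₁, a - w₁, by ring, ?_⟩
    rw [hcc]
    linear_combination -h1
  · exfalso
    -- the Frobenius of `K`
    let φ : L →ₐ[K] L := FiniteField.frobeniusAlgHom K L
    have hφ : ∀ x, φ x = x ^ Q := fun x => by
      simp [φ, hQ]
    have hφjK : ∀ x : K, φ (jK x) = jK x := fun x => by rw [hφ, hfix]
    have h1 : φ w ^ 2 - jK a * φ w + jK C' ^ 3 = 0 := by
      have := congrArg φ hw'
      rw [map_add, map_sub, map_mul, map_pow, map_pow, hφjK, hφjK, map_zero] at this
      exact this
    have hne : φ w - w ≠ 0 := by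
      rw [hφ]
      exact sub_ne_zero.2 hwQ
    have h2 : φ w + w = jK a := by
      have : (φ w - w) * (φ w + w - jK a) = 0 := by linear_combination h1 - hw'
      exact sub_eq_zero.1 ((mul_eq_zero.1 this).resolve_left hne)
    have h3 : φ w * w = jK C' ^ 3 := by
      linear_combination w * h2 - hw'
    obtain ⟨z, hz⟩ := IsAlgClosed.exists_pow_nat_eq w (n := 3) (by norm_num)
    have hz0 : z ≠ 0 := by
      rintro rfl
      exact hw0 (by rw [← hz]; norm_num)
    set t := φ z * z / jK C' with ht
    have ht3 : t ^ 3 = 1 := by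
      rw [ht, div_pow, mul_pow, ← map_pow, hz, h3, div_self (pow_ne_zero _ hjKC)]
    have ht0 : t ≠ 0 := by
      intro h
      rw [h] at ht3
      norm_num at ht3
    have htφ : φ t = t := by
      rw [hφ]
      have : Q = 3 * (Q / 3) + 1 := by omega
      rw [this, pow_add, pow_mul, ht3, one_pow, one_mul, pow_one]
    have hφz : φ z = t * jK C' / z := by
      rw [ht]
      field_simp
    have hφφz : φ (φ z) = z := by
      rw [hφz, map_div₀, map_mul, htφ, hφjK, hφz]
      field_simp
    set b := z + jK C' / z with hb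
    have hφφb : φ (φ b) = b := by
      rw [hb, map_add, map_div₀, hφjK, map_add, map_div₀, hφφz, hφjK]
    have hmb : aeval b (mm c) = jK a := by
      rw [aeval_mm, IsScalarTower.algebraMap_apply F K L]
      change b ^ 3 - 3 * jK C' * b = jK a
      have e1 : b ^ 3 - 3 * jK C' * b = z ^ 3 + jK C' ^ 3 / z ^ 3 := by
        rw [hb]
        field_simp
        ring
      rw [e1, hz, div_eq_of_eq_mul hw0 h3.symm, ← h2]
      ring
    have hDb : aeval b (D.comp (mm c)) = 0 := by
      rw [aeval_comp, hmb]
      change aeval (algebraMap K L a) D = 0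
      rw [aeval_algebraMap_apply, ha, map_zero]
    have h4 := pow_cube (K := K) (mm_natDegree c) hi hD hDb
    rw [← hQ, ← hφ, ← hφ, ← hφ, hφφb, hφ] at h4
    obtain ⟨x, hx⟩ := mem_of_pow (K := K) h4
    refine no_root hDm (mm_monic c) (mm_natDegree c) hi hD x ?_
    have h5 : jK (aeval x (mm c)) = jK a := by
      rw [← hmb, ← hx, aeval_algebraMap_apply]
    rw [jK.injective h5, ha]

theorem quad (hq : Fintype.card F % 6 = 1) {c : F} (hc0 : c ≠ 0) {D : F[X]} (hDm : D.Monic)
    (hi : Irreducible (D.comp (mm c))) (hD : D.natDegree = Module.finrank F K) {a : K}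
    (ha : aeval a D = 0) : ∃ w₁ w₂ : K, w₁ + w₂ = a ∧ w₁ * w₂ = algebraMap F K (c ^ 3) :=
  quad_aux (AlgebraicClosure K) hq hc0 hDm hi hD ha

/-- The solutions of `h_c(w) = a` are noncubes. -/
theorem nc (hq : Fintype.card F % 6 = 1) {c : F} {D : F[X]} (hDm : D.Monic)
    (hi : Irreducible (D.comp (mm c))) (hD : D.natDegree = Module.finrank F K) {w : K}
    (hw0 : w ≠ 0) (ha : aeval (hc c w) D = 0) : NC w := by
  have hK : Fintype.card K % 3 = 1 := by
    rw [Module.card_eq_pow_finrank (K := F) (V := K), Nat.pow_mod,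
      show Fintype.card F % 3 = 1 by omega]
    simp
  refine ⟨hw0, fun h => ?_⟩
  obtain ⟨z, hz⟩ := IsAlgClosed.exists_pow_nat_eq (algebraMap K (AlgebraicClosure K) w) (n := 3)
    (by norm_num)
  have h1 : z ^ Fintype.card K = z := by
    have : Fintype.card K = 3 * ((Fintype.card K - 1) / 3) + 1 := by omega
    rw [this, pow_add, pow_mul, hz, ← map_pow, h, map_one, one_mul, pow_one]
  obtain ⟨x, rfl⟩ := mem_of_pow (K := K) h1
  rw [← map_pow] at hz
  have hx : x ^ 3 = w := (algebraMap K (AlgebraicClosure K)).injective hz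
  have hx0 : x ≠ 0 := by
    rintro rfl
    exact hw0 (by rw [← hx]; norm_num)
  refine no_root hDm (mm_monic c) (mm_natDegree c) hi hD (x + algebraMap F K c / x) ?_
  have h2 : aeval (x + algebraMap F K c / x) (mm c) = hc c w := by
    rw [aeval_mm, hc, ← hx, map_pow]
    field_simp
    ring
  rw [h2, ha]

/-- The fibre over a root. -/
theorem card_root [DecidableEq F] (hq : Fintype.card F % 6 = 1) {c : F} {D : F[X]} (hDm : D.Monic)
    (hi : Irreducible (D.comp (mm c))) (hD : D.natDegree = Module.finrank F K) {a : K}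
    (ha : aeval a D = 0) (s : Finset K) (hs : ∀ w, w ∈ s ↔ NC w ∧ hc c w = a) :
    s.card = if c = 0 then 1 else 2 := by
  split_ifs with h0
  · subst h0
    have hw : ∀ w : K, hc (0 : F) w = w := fun w => by simp [hc]
    rw [card_eq_one]
    refine ⟨a, ?_⟩
    ext w
    rw [hs, mem_singleton, hw]
    refine ⟨fun h => h.2, ?_⟩
    rintro rfl
    refine ⟨nc hq hDm hi hD ?_ (by rw [hw]; exact ha), rfl⟩
    rintro rfl
    refine no_root hDm (mm_monic 0) (mm_natDegree 0) hi hD (0 : K) ?_
    rw [aeval_mm]
    simpa using ha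
  · obtain ⟨w₁, w₂, h1, h2⟩ := quad hq h0 hDm hi hD ha
    have hC0 : algebraMap F K (c ^ 3) ≠ 0 := (_root_.map_ne_zero _).2 (pow_ne_zero _ h0)
    have hw₁ : w₁ ≠ 0 := by
      rintro rfl
      exact hC0 (by rw [← h2, zero_mul])
    have hw₂ : w₂ ≠ 0 := by
      rintro rfl
      exact hC0 (by rw [← h2, mul_zero])
    have e1 : hc c w₁ = a := by
      rw [hc, ← h2, mul_div_cancel_left₀ _ hw₁, h1]
    have e2 : hc c w₂ = a := by
      rw [hc, ← h2, mul_div_cancel_right₀ _ hw₂, add_comm, h1]
    have n1 : NC w₁ := nc hq hDm hi hD hw₁ (by rw [e1]; exact ha)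
    have n2 : NC w₂ := nc hq hDm hi hD hw₂ (by rw [e2]; exact ha)
    have hne : w₁ ≠ w₂ := by
      rintro rfl
      have hK : Fintype.card K % 3 = 1 := by
        rw [Module.card_eq_pow_finrank (K := F) (V := K), Nat.pow_mod,
          show Fintype.card F % 3 = 1 by omega]
        simp
      have hd : Fintype.card K - 1 = 3 * ((Fintype.card K - 1) / 3) := by omega
      have hu3 : (w₁ ^ ((Fintype.card K - 1) / 3)) ^ 3 = 1 := by
        rw [← pow_mul, mul_comm, ← hd]
        exact FiniteField.pow_card_sub_one_eq_one w₁ hw₁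
      have hu2 : (w₁ ^ ((Fintype.card K - 1) / 3)) ^ 2 = 1 := by
        rw [← pow_mul, mul_comm, pow_mul, pow_two, h2, map_pow, ← pow_mul, ← hd]
        exact FiniteField.pow_card_sub_one_eq_one _ ((_root_.map_ne_zero _).2 h0)
      refine n1.2 ?_
      rw [pow_succ, hu2, one_mul] at hu3
      exact hu3
    classical
    rw [card_eq_two]
    refine ⟨w₁, w₂, hne, ?_⟩
    ext w
    rw [hs, mem_insert, mem_singleton]
    constructor
    · rintro ⟨hw, hwa⟩
      have hw0 := hw.1
      rw [hc, ← h2, ← h1] at hwa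
      have : (w - w₁) * (w - w₂) = 0 := by
        field_simp at hwa
        linear_combination hwa
      rcases mul_eq_zero.1 this with h | h
      · exact Or.inl (sub_eq_zero.1 h)
      · exact Or.inr (sub_eq_zero.1 h)
    · rintro (rfl | rfl)
      · exact ⟨n1, e1⟩
      · exact ⟨n2, e2⟩

end Fin

end PAR2

theorem stmt_PAR2 (hP : Stmt_PAR1) : Stmt_PAR2 := by
  intro F K _ _ _ _ _ _ hq k hk hn c P
  classical
  set n := 3 ^ k with hn'
  have hn0 : 0 < n := by positivity
  set f : K → F[X] := fun w => minpoly F (hc c w) with hf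
  set T : Finset K := univ.filter fun w => NC w ∧ P (f w) with hT
  have hfam : ∀ w : K, NC w → f w ∈ fam F (mm c) n := by
    intro w hw
    obtain ⟨h1, h2⟩ := hP F K hq k hk hn c w hw
    exact ⟨minpoly.monic (Algebra.IsIntegral.isIntegral _), h1, h2⟩
  -- the fibres
  have hfib : ∀ D ∈ fam F (mm c) n, P D →
      (T.filter fun w => f w = D).card = (if c = 0 then 1 else 2) * n := by
    rintro D ⟨hDm, hDn, hi⟩ hPD
    have hiD : Irreducible D := PAR2.irreducible_of_comp (PAR2.mm_natDegree c) hi
    have hD : D.natDegree = Module.finrank F K := by rw [hDn, hn]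
    have hz := stmt_ZER F K D hDm hiD
    rw [if_pos (by rw [hD]), hDn] at hz
    have hmin : ∀ a : K, minpoly F a = D ↔ aeval a D = 0 := by
      intro a
      constructor
      · rintro rfl
        exact minpoly.aeval F a
      · intro h
        exact (minpoly.eq_of_irreducible_of_monic hiD h hDm).symm
    have hmaps : ∀ w ∈ T.filter (fun w => f w = D), hc c w ∈ univ.filter fun a : K => aeval a D = 0 := by
      intro w hw
      rw [mem_filter] at hw ⊢
      exact ⟨mem_univ _, (hmin _).1 hw.2⟩
    rw [card_eq_sum_card_fiberwise hmaps]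
    have : ∀ a ∈ univ.filter (fun a : K => aeval a D = 0),
        ((T.filter fun w => f w = D).filter fun w => hc c w = a).card =
          if c = 0 then 1 else 2 := by
      intro a ha
      rw [mem_filter] at ha
      refine PAR2.card_root hq hDm hi hD ha.2 _ fun w => ?_
      rw [mem_filter, mem_filter, hT, mem_filter]
      constructor
      · rintro ⟨⟨⟨-, h1, -⟩, -⟩, h2⟩
        exact ⟨h1, h2⟩
      · rintro ⟨h1, h2⟩
        have h3 : f w = D := (hmin _).2 (by rw [h2]; exact ha.2)
        exact ⟨⟨⟨mem_univ _, h1, by rw [h3]; exact hPD⟩, h3⟩, h2⟩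
    rw [sum_congr rfl this, sum_const, hz, smul_eq_mul, mul_comm]
  have hset : {D | D ∈ fam F (mm c) n ∧ P D} = ((T.image f : Finset F[X]) : Set F[X]) := by
    ext D
    rw [Set.mem_ofPred_eq, mem_coe, mem_image]
    constructor
    · rintro ⟨h1, h2⟩
      have h3 := hfib D h1 h2
      have h4 : 0 < (T.filter fun w => f w = D).card := by
        rw [h3]
        split_ifs <;> omega
      obtain ⟨w, hw⟩ := card_pos.1 h4
      rw [mem_filter] at hw
      exact ⟨w, hw⟩
    · rintro ⟨w, hw, rfl⟩
      rw [hT, mem_filter] at hw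
      exact ⟨hfam w hw.2.1, hw.2.2⟩
  have hcard : Nat.card {w : K // NC w ∧ P (minpoly F (hc c w))} = T.card := by
    rw [Nat.card_eq_fintype_card, Fintype.card_subtype]
  rw [hcard, hset, Set.ncard_coe_finset, card_eq_sum_card_image f T]
  have : ∀ D ∈ T.image f, (T.filter fun w => f w = D).card = (if c = 0 then 1 else 2) * n := by
    intro D hD
    have h1 : D ∈ {D | D ∈ fam F (mm c) n ∧ P D} := by
      rw [hset]
      exact hD
    exact hfib D h1.1 h1.2
  rw [sum_congr rfl this, sum_const, smul_eq_mul, mul_comm]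

end Pool.Agent.Work.ES
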